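import Pool.Agent.Helper12.TS.StB
import Pool.Agent.Helper51.AJ.Basic

/-!
# Project TS, module FIN: the third part
-/

set_option autoImplicit false

namespace Pool.Agent.Helper92.TS

open Pool.Agent.Helper12.TS
open Pool.Agent.Helper51.AJ (IsMinor Planar Apex ExMinor Con Tch)
open Pool.Agent.Helper12.NK (rst Kc add)

/-- four different elements of a set of three elements -/
private theorem four_FIN {V : Type} [Finite V] {S : Set V} (hS : S.ncard = 3) {a b c d : V}
    (ha : a ∈ S) (hb : b ∈ S) (hc : c ∈ S) (hd : d ∈ S) (hab : a ≠ b) (hac : a ≠ c) (had : a ≠ d)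
    (hbc : b ≠ c) (hbd : b ≠ d) (hcd : c ≠ d) : False := by
  have h1 : ({a, b, c, d} : Set V) ⊆ S := by
    rintro z (rfl | rfl | rfl | rfl)
    · exact ha
    · exact hb
    · exact hc
    · exact hd
  have h2 := Set.ncard_le_ncard h1 (Set.toFinite S)
  have h3 : ({c, d} : Set V).ncard = 2 := Set.ncard_pair hcd
  have h4 : ({b, c, d} : Set V).ncard = 3 := by
    rw [Set.ncard_insert_of_notMem _ (Set.toFinite _), h3]
    rintro (h | h)
    · exact hbc h
    · exact hbd h
  have h5 : ({a, b, c, d} : Set V).ncard = 4 := by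
    rw [Set.ncard_insert_of_notMem _ (Set.toFinite _), h4]
    rintro (h | h | h)
    · exact hab h
    · exact hac h
    · exact had h
  omega

/-- choice of the element of `S` and of the sides -/
private theorem cho_FIN {V : Type} [Finite V] {S : Set V} (hS : S.ncard = 3) (P Q : V → Prop)
    (hPQ : ∀ s ∈ S, P s ∨ Q s) (hP : ∃ s ∈ S, P s) (hQ : ∃ s ∈ S, Q s) :
    (∃ s ∈ S, P s ∧ ∀ t ∈ S, t ≠ s → Q t) ∨ (∃ s ∈ S, Q s ∧ ∀ t ∈ S, t ≠ s → P t) := by
  by_cases h1 : ∃ s ∈ S, ¬ Q s
  · obtain ⟨s, hs, hsQ⟩ := h1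
    have hsP : P s := (hPQ s hs).resolve_right hsQ
    by_cases h2 : ∀ t ∈ S, t ≠ s → Q t
    · exact Or.inl ⟨s, hs, hsP, h2⟩
    · push Not at h2
      obtain ⟨s', hs', hne, hsQ'⟩ := h2
      have hsP' : P s' := (hPQ s' hs').resolve_right hsQ'
      obtain ⟨b, hb, hbQ⟩ := hQ
      refine Or.inr ⟨b, hb, hbQ, fun t ht htb => ?_⟩
      by_contra htP
      refine four_FIN hS hs hs' hb ht hne.symm ?_ ?_ ?_ ?_ htb.symm
      · rintro rfl
        exact hsQ hbQ
      · rintro rfl
        exact htP hsP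
      · rintro rfl
        exact hsQ' hbQ
      · rintro rfl
        exact htP hsP'
  · push Not at h1
    obtain ⟨a, ha, haP⟩ := hP
    exact Or.inl ⟨a, ha, haP, fun t ht _ => h1 t ht⟩

theorem hFIN (hCMP : StCMP) (hSTG : StSTG) (hPLC : StPLC) (hTRI : StTRI) (hSMA : StSMA)
    (hSMB : StSMB) : StFIN := by
  intro V _ G S hM hK hS hnc hdeg
  obtain ⟨c1, -, -, -, -, -, -⟩ := hCMP V G S
  have hSne : S.Nonempty := by
    rw [Set.nonempty_iff_ne_empty]
    rintro rfl
    rw [Set.ncard_empty] at hS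
    omega
  obtain ⟨s₀, hs₀⟩ := hSne
  -- every component has at least two elements
  have htwo : ∀ C, Cmp G S C → 2 ≤ C.ncard := by
    intro C hC
    exact (hdeg C hC s₀ hs₀).trans (Set.ncard_le_ncard (fun x hx => hx.1) (Set.toFinite C))
  -- two components
  have hex : ∃ x, x ∉ S := by
    by_contra hno
    push Not at hno
    have hu : S = Set.univ := Set.eq_univ_of_forall hno
    have h3 : 3 < (Set.univ : Set V).ncard := hK.1
    rw [← hu, hS] at h3
    exact lt_irrefl _ h3
  obtain ⟨x, hx⟩ := hex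
  obtain ⟨A, hA, hxA⟩ := c1 x hx
  have hAS : A ≠ Sᶜ := by
    rintro rfl
    exact hnc hA.2.1
  have hAsub : A ⊆ Sᶜ := Set.subset_compl_iff_disjoint_right.2 hA.1
  have hex2 : ∃ z, z ∉ S ∧ z ∉ A := by
    by_contra hno
    push Not at hno
    exact hAS (Set.Subset.antisymm hAsub fun z hz => hno z hz)
  obtain ⟨z, hzS, hzA⟩ := hex2
  obtain ⟨B, hB, hzB⟩ := c1 z hzS
  have hAB : A ≠ B := by
    rintro rfl
    exact hzA hzB
  -- at most two components
  have hle : {C | Cmp G S C}.ncard ≤ 2 := by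
    by_contra hgt
    have h3 : 3 ≤ {C | Cmp G S C}.ncard := by omega
    obtain ⟨-, C₀, -, hC₀⟩ := hTRI V G S hM hK hS h3
    by_cases h : A = C₀
    · have h1 := hC₀ B hB (fun h' => hAB (h.trans h'.symm))
      have h2 := htwo B hB
      omega
    · have h1 := hC₀ A hA h
      have h2 := htwo A hA
      omega
  have hpair : ({A, B} : Set (Set V)).ncard = 2 := Set.ncard_pair hAB
  have hsub : ({A, B} : Set (Set V)) ⊆ {C | Cmp G S C} := by
    rintro C (rfl | rfl)
    · exact hA
    · exact hB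
  have heq : ({A, B} : Set (Set V)) = {C | Cmp G S C} :=
    Set.eq_of_subset_of_ncard_le hsub (by rw [hpair]; exact hle) (Set.toFinite _)
  have hcov0 : ∀ C, Cmp G S C → C = A ∨ C = B := by
    intro C hC
    have : C ∈ ({A, B} : Set (Set V)) := by
      rw [heq]
      exact hC
    exact this
  have hcov : ∀ y, y ∈ A ∨ y ∈ B ∨ y ∈ S := by
    intro y
    by_cases hy : y ∈ S
    · exact Or.inr (Or.inr hy)
    · obtain ⟨C, hC, hyC⟩ := c1 y hy
      rcases hcov0 C hC with rfl | rfl
      · exact Or.inl hyC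
      · exact Or.inr (Or.inl hyC)
  have hcov' : ∀ y, y ∈ B ∨ y ∈ A ∨ y ∈ S := by
    intro y
    rcases hcov y with h | h | h
    · exact Or.inr (Or.inl h)
    · exact Or.inl h
    · exact Or.inr (Or.inr h)
  have hnpl : ∀ C, Cmp G S C → Npl G S C := by
    intro C hC
    by_contra hn
    have h1 := hPLC V G S C hM hK hS hC hn
    have h2 := htwo C hC
    omega
  have hstg : ∀ s ∈ S, Stg G S A s ∨ Stg G S B s := by
    intro s hs
    obtain ⟨C, hC, hCs⟩ := hSTG V G S hM.1 hS s hs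
    rcases hcov0 C hC with rfl | rfl
    · exact Or.inl hCs
    · exact Or.inr hCs
  refine ⟨by rw [← heq]; exact hpair, ?_⟩
  by_cases hIA : ∃ s ∈ S, Stg G S A s
  · by_cases hIB : ∃ s ∈ S, Stg G S B s
    · rcases cho_FIN hS (Stg G S A) (Stg G S B) hstg hIA hIB with ⟨s, hs, h1, h2⟩ | ⟨s, hs, h1, h2⟩
      · exact ⟨A, hA, hSMA V G S A B s hM hK hS hA hB hAB hs (hdeg A hA s hs)
          (fun t ht _ => hdeg B hB t ht) h1 h2⟩
      · exact ⟨B, hB, hSMA V G S B A s hM hK hS hB hA hAB.symm hs (hdeg B hB s hs)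
          (fun t ht _ => hdeg A hA t ht) h1 h2⟩
    · push Not at hIB
      refine ⟨B, hB, le_trans (hSMB V G S B A hM hK hS hB hA hAB.symm hcov'
        (fun t ht => hdeg A hA t ht) (hnpl B hB) hIB
        (fun s hs => (hstg s hs).resolve_right (hIB s hs))) (by norm_num)⟩
  · push Not at hIA
    refine ⟨A, hA, le_trans (hSMB V G S A B hM hK hS hA hB hAB hcov
      (fun t ht => hdeg B hB t ht) (hnpl A hA) hIA
      (fun s hs => (hstg s hs).resolve_left (hIA s hs))) (by norm_num)⟩

end Pool.Agent.Helper92.TS
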