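import Pool.Agent.Helper12.TS.StB
import Pool.Agent.Helper51.AJ.Basic
import Pool.Agent.Helper41.AJ.M_CON

/-!
# Project TS, module SPM: spanning models
-/

set_option autoImplicit false

namespace Pool.Agent.Helper92.TS

open Pool.Agent.Helper12.TS
open Pool.Agent.Helper51.AJ (IsMinor Planar Apex ExMinor Con Tch)
open Pool.Agent.Helper12.NK (rst Kc add)

/-- an element of a branch set has a neighbour -/
private theorem nb_SPM {ι V : Type} [Finite V] {Γ : SimpleGraph ι} {H : SimpleGraph V}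
    {φ : ι → Set V} (hφ : Md Γ H φ) (hΓ : ∀ i, ∃ j, Γ.Adj i j) {i : ι} {x : V} (hx : x ∈ φ i) :
    ∃ y, H.Adj x y := by
  by_cases h : φ i = {x}
  · obtain ⟨j, hj⟩ := hΓ i
    obtain ⟨a, ha, y, _, hay⟩ := hφ.2.2 i j hj
    rw [h, Set.mem_singleton_iff] at ha
    exact ⟨y, ha ▸ hay⟩
  · obtain ⟨a, ha, y, _, hay⟩ := (Pool.Agent.Helper41.AJ.hCON V H (φ i) (hφ.1 i)).1 {x}
      (Set.singleton_subset_iff.2 hx) (Set.singleton_nonempty x) (fun h' => h h'.symm)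
    rw [Set.mem_singleton_iff] at ha
    exact ⟨y, ha ▸ hay⟩

/-- enlarging a branch set -/
private theorem enl_SPM {ι V : Type} {Γ : SimpleGraph ι} {H : SimpleGraph V}
    {φ : ι → Set V} (hφ : Md Γ H φ) (i : ι) {x y : V} (hx : x ∈ φ i) (hy : ∀ j, y ∉ φ j)
    (hxy : H.Adj x y) : ∃ ψ : ι → Set V, Md Γ H ψ ∧ (⋃ j, ψ j) = insert y (⋃ j, φ j) := by
  classical
  have hle : ∀ j, φ j ⊆ (if j = i then insert y (φ j) else φ j) := by
    intro j
    split_ifs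
    · exact Set.subset_insert _ _
    · exact subset_rfl
  refine ⟨fun j => if j = i then insert y (φ j) else φ j, ⟨fun j => ?_, fun j k hjk => ?_,
    fun j k hjk => ?_⟩, ?_⟩
  · show Con H (if j = i then insert y (φ j) else φ j)
    split_ifs with h
    · rw [Set.insert_eq, Set.union_comm]
      refine Pool.Agent.Helper51.AJ.con_union (hφ.1 j)
        (Pool.Agent.Helper51.AJ.con_singleton H y) ⟨x, h ▸ hx, y, rfl, hxy⟩
    · exact hφ.1 j
  · show Disjoint (if j = i then insert y (φ j) else φ j) (if k = i then insert y (φ k) else φ k)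
    have hd := hφ.2.1 j k hjk
    by_cases hj : j = i
    · have hk : k ≠ i := fun hk => hjk (hj.trans hk.symm)
      rw [if_pos hj, if_neg hk, Set.disjoint_insert_left]
      exact ⟨hy k, hd⟩
    · rw [if_neg hj]
      by_cases hk : k = i
      · rw [if_pos hk, Set.disjoint_insert_right]
        exact ⟨hy j, hd⟩
      · rw [if_neg hk]
        exact hd
  · exact Pool.Agent.Helper51.AJ.tch_mono (hφ.2.2 j k hjk) (hle j) (hle k)
  · ext z
    simp only [Set.mem_iUnion, Set.mem_insert_iff]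
    constructor
    · rintro ⟨j, hj⟩
      by_cases h : j = i
      · rw [if_pos h] at hj
        rcases hj with hj | hj
        · exact Or.inl hj
        · exact Or.inr ⟨j, hj⟩
      · rw [if_neg h] at hj
        exact Or.inr ⟨j, hj⟩
    · rintro (hz | ⟨j, hj⟩)
      · refine ⟨i, ?_⟩
        rw [if_pos rfl]
        exact Or.inl hz
      · exact ⟨j, hle j hj⟩

theorem hSPM (hPTN : StPTN) : StSPM := by
  intro V _ H U hU hcon hnp
  obtain ⟨-, -, -, -, -, -, -, h8, -, h10⟩ := hPTN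
  obtain ⟨ι, hι, Γ, φ0, hc, hk, hnΓ, hφ0⟩ := h8 V H hnp
  have hΓ : ∀ i, ∃ j, Γ.Adj i j := by
    intro i
    obtain ⟨j, _, hj⟩ := h10 ι Γ hk i ∅ (by rw [Set.ncard_empty]; exact Nat.zero_le 2)
    exact ⟨j, hj⟩
  have hsub : ∀ φ, Md Γ H φ → (⋃ j, φ j) ⊆ U := by
    intro φ hφ z hz
    obtain ⟨j, hj⟩ := Set.mem_iUnion.1 hz
    obtain ⟨y, hy⟩ := nb_SPM hφ hΓ hj
    exact hU z y hy
  -- a model with a largest union
  obtain ⟨φ, hφ, hmax⟩ : ∃ φ, Md Γ H φ ∧ ∀ ψ, Md Γ H ψ → (⋃ j, ψ j).ncard ≤ (⋃ j, φ j).ncard := by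
    have hne : ({k : ℕ | ∃ φ, Md Γ H φ ∧ (⋃ j, φ j).ncard = k}).Nonempty := ⟨_, φ0, hφ0, rfl⟩
    have hb : BddAbove {k : ℕ | ∃ φ, Md Γ H φ ∧ (⋃ j, φ j).ncard = k} := by
      refine ⟨U.ncard, ?_⟩
      rintro k ⟨φ, hφ, rfl⟩
      exact Set.ncard_le_ncard (hsub φ hφ) (Set.toFinite U)
    obtain ⟨φ, hφ, hφk⟩ := Nat.sSup_mem hne hb
    refine ⟨φ, hφ, fun ψ hψ => ?_⟩
    rw [hφk]
    exact le_csSup hb ⟨ψ, hψ, rfl⟩
  refine ⟨ι, hι, Γ, φ, hc, hk, hnΓ, hφ, ?_⟩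
  by_contra hne
  have hιn : Nonempty ι := by
    have h3 : 3 < (Set.univ : Set ι).ncard := hk.1
    have h4 : (Set.univ : Set ι).Nonempty := by
      rw [Set.nonempty_iff_ne_empty]
      intro h5
      rw [h5, Set.ncard_empty] at h3
      omega
    exact ⟨h4.some⟩
  have hTne : (⋃ j, φ j).Nonempty := by
    obtain ⟨z, hz⟩ := Pool.Agent.Helper51.AJ.con_nonempty (hφ.1 hιn.some)
    exact ⟨z, Set.mem_iUnion.2 ⟨_, hz⟩⟩
  obtain ⟨x, hx, y, hy, hxy⟩ := (Pool.Agent.Helper41.AJ.hCON V H U hcon).1 (⋃ j, φ j) (hsub φ hφ)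
    hTne hne
  obtain ⟨i, hi⟩ := Set.mem_iUnion.1 hx
  have hy2 : y ∉ ⋃ j, φ j := hy.2
  obtain ⟨ψ, hψ, hψU⟩ := enl_SPM hφ i hi (fun j hj => hy2 (Set.mem_iUnion.2 ⟨j, hj⟩)) hxy
  have h5 := hmax ψ hψ
  rw [hψU, Set.ncard_insert_of_notMem hy2 (Set.toFinite _)] at h5
  omega

end Pool.Agent.Helper92.TS
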